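import Pool.Agent.H55.Sweep.AllN

/-!
Membership in level `k + 1` of the hierarchy of compositions of closing CA, for the block
recodings `f^[n]` over the alphabets `S^n`: membership for one `n`, membership for all large `n`
and a finite test on the local rule of `f` are equivalent.
-/

namespace Pool.Agent.Results.MP_0c8aad_lc.Eventual

open Pool.Agent.H55.Sweep

theorem result {S : Type*} [Fintype S] [TopologicalSpace S] [DiscreteTopology S]
    (f : Conf S → Conf S) (hf : IsCA f) (a : ℤ) (m : ℕ) (hw : Window f a m)
    (b : Bool) (k : ℕ) :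
    List.TFAE [
      ∃ (n : ℕ) (hn : 0 < n), recode n hn f ∈ Level b (k + 1),
      ∃ n₁ : ℕ, ∀ (n : ℕ) (hn : 0 < n), n₁ ≤ n → recode n hn f ∈ Level b (k + 1),
      ∃ A : ℕ → Set ((Fin m → S) × (Fin m → S)),
        FinChain f a m b (k + 1) (Fintype.card S ^ (3 * m) + 1) A] := by
  refine eventual_tfae hf hw b k ?_
  rw [Nat.card_eq_fintype_card, Fintype.card_fun, Fintype.card_prod, Fintype.card_prod,
    Fintype.card_fin]
  have e : Fintype.card S * (Fintype.card S * Fintype.card S) = Fintype.card S ^ 3 := by ring
  rw [e, ← pow_mul, add_comm]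

end Pool.Agent.Results.MP_0c8aad_lc.Eventual
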