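import Pool.Agent.H55.Sweep.Levels

/-!
A CA with window `[a, a+m]` that lies in some level of the hierarchy of compositions of closing
CA lies in level `C(|S|^m, 2) + 1` of both types.
-/

namespace Pool.Agent.Results.MP_0c8aad_lc.LevelBound

open Pool.Agent.H55.Sweep

theorem result {S : Type*} [Fintype S] [TopologicalSpace S] [DiscreteTopology S]
    (f : Conf S → Conf S) (a : ℤ) (m : ℕ) (hw : Window f a m)
    (b : Bool) (k : ℕ) (hf : f ∈ Level b k) :
    (Pairs m f).ncard ≤ (Fintype.card S ^ m).choose 2 ∧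
      ∀ (c : Bool) (n : ℕ), (Pairs m f).ncard + 1 ≤ n → f ∈ Level c n :=
  ⟨pairs_card m f, fun c _ hn => level_bound hw hf c hn⟩

end Pool.Agent.Results.MP_0c8aad_lc.LevelBound
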