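import Pool.Agent.H55.Sweep.NoLev3

/-!
A surjective CA on six letters, with `f(x)_i` depending on `x_i, x_{i+1}` only, which is in no
level of the hierarchy, and neither is any of its block recodings `f^[n]`.
-/

namespace Pool.Agent.Results.MP_0c8aad_lc.NoLevel

open Pool.Agent.H55.Sweep

theorem result :
    ∃ f : Conf (Fin 6) → Conf (Fin 6), IsCA f ∧ Window f 0 1 ∧ Function.Surjective f ∧
      ∀ (b : Bool) (k : ℕ), f ∉ Level b k ∧
        ∀ (n : ℕ) (hn : 0 < n), recode n hn f ∉ Level b k :=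
  ⟨f6, f6_isCA, f6_window, f6_surj, fun b k => ⟨f6_no_level' b k, fun n hn =>
    f6_no_level n hn b k⟩⟩

end Pool.Agent.Results.MP_0c8aad_lc.NoLevel
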