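import Pool.Agent.H55.Sweep.Normal

/-!
Normal form for membership in level `k + 1` of the hierarchy of compositions of closing CA.
-/

namespace Pool.Agent.Results.MP_0c8aad_lc.NormalForm

open Pool.Agent.H55.Sweep

theorem result {S : Type*} [Fintype S] [TopologicalSpace S] [DiscreteTopology S]
    (f : Conf S → Conf S) (hf : IsCA f) (a : ℤ) (m : ℕ) (hw : Window f a m)
    (b : Bool) (k : ℕ) :
    f ∈ Level b (k + 1) ↔ ∃ A : ℕ → Set ((Fin m → S) × (Fin m → S)),
      (∀ x y, Ker f m (A 0) x y ↔ x = y) ∧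
      (∀ x y, Ker f m (A (k + 1)) x y ↔ f x = f y) ∧
      (∀ i, i ≤ k → A i ⊆ A (i + 1)) ∧
      (∀ i, i ≤ k → StepClosed f m (A i) (A (i + 1)) (typ b (k - i))) ∧
      (∀ i, 1 ≤ i → i ≤ k → ∃ h : Conf S → Conf S, IsCA h ∧ Function.Surjective h ∧
        ∀ x y, h x = h y ↔ Ker f m (A i) x y) := by
  rw [level_iff hf hw]
  constructor
  · rintro ⟨A, hA, hK⟩
    refine ⟨A, hA.1, fun x y => (hK x y).symm, fun i hi => (hA.2 i (by omega)).1, fun i hi => ?_,
      fun i _ hi => (hA.2 i (by omega)).2.1⟩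
    have h := (hA.2 i (by omega)).2.2
    have e : k + 1 - 1 - i = k - i := by omega
    rwa [e] at h
  · rintro ⟨A, h0, hK, hsub, hst, hfac⟩
    refine ⟨A, ⟨h0, fun i hi => ⟨hsub i (by omega), ?_, ?_⟩⟩, fun x y => (hK x y).symm⟩
    · rcases Nat.eq_zero_or_pos i with rfl | hpos
      · exact ⟨id, isCA_id, Function.surjective_id, fun x y => (h0 x y).symm⟩
      · exact hfac i hpos (by omega)
    · have h := hst i (by omega)
      have e : k + 1 - 1 - i = k - i := by omega
      rwa [e]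

end Pool.Agent.Results.MP_0c8aad_lc.NormalForm
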